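import Pool.Agent.H376R2.MR.TpartA
import Pool.Agent.H376R2.MR.LevA
import Pool.Agent.H376R2.MR.LevB
import Pool.Agent.H376R2.MR.Cnt

set_option autoImplicit false

namespace Pool.Agent.H376R2.MR

open Finset Filter

/-- All frequencies outside a sparse set (proof: helper287, `TpartA`). -/
theorem tpart {α η : ℝ} (hα : 0 < α) (hη : 0 < η) : ∃ h : ℝ, 1 ≤ h ∧ ∃ Y₀ : ℝ, ∀ Y : ℝ, Y₀ ≤ Y →
    ∃ U : Finset ℤ, (U.card : ℝ) ≤ Y ^ α ∧ ∑ k ∈ FK ⌊Y / h⌋₊ \ U, ‖GG Y k‖ ^ 2 ≤ η :=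
  tpart_of lev_zero lev_succ cnt hα hη

end Pool.Agent.H376R2.MR
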